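import Pool.Agent.Q173.KS.Stm

/-! Project KS, job PROB. -/

set_option autoImplicit false

namespace Pool.Agent.Q142.KS

open Pool.Agent.Q173.KS Finset

/-- weight of a coin vector -/
noncomputable def wgt {l : ℕ} (p : Fin l → ℝ) (ω : Fin l → Bool) : ℝ :=
  ∏ i, (if ω i then p i else 1 - p i)

theorem sum_cons {l : ℕ} (f : (Fin (l + 1) → Bool) → ℝ) :
    ∑ ω : Fin (l + 1) → Bool, f ω =
      ∑ ω : Fin l → Bool, (f (Fin.cons true ω) + f (Fin.cons false ω)) := by
  rw [← (Fin.consEquiv (fun _ : Fin (l + 1) => Bool)).sum_comp, Fintype.sum_prod_type,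
    Fintype.sum_bool, ← sum_add_distrib]
  rfl

theorem outcome_cons {n l : ℕ} (a b : Fin (l + 1) → Fin n) (c : Bool) (ω : Fin l → Bool) :
    outcome a b (Fin.cons c ω : Fin (l + 1) → Bool) =
      (if c then Equiv.swap (a 0) (b 0) else 1) *
        outcome (fun i => a i.succ) (fun i => b i.succ) ω := by
  unfold outcome
  rw [List.ofFn_succ, List.prod_cons]
  simp only [Fin.cons_zero, Fin.cons_succ]

theorem wgt_cons {l : ℕ} (p : Fin (l + 1) → ℝ) (c : Bool) (ω : Fin l → Bool) :
    wgt p (Fin.cons c ω : Fin (l + 1) → Bool) =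
      (if c then p 0 else 1 - p 0) * wgt (fun i => p i.succ) ω := by
  unfold wgt
  rw [Fin.prod_univ_succ]
  simp only [Fin.cons_zero, Fin.cons_succ]

theorem step {n l : ℕ} (a b : Fin (l + 1) → Fin n) (p : Fin (l + 1) → ℝ)
    (F : Equiv.Perm (Fin n) → ℝ) :
    ∑ ω : Fin (l + 1) → Bool, F (outcome a b ω) * wgt p ω =
      (1 - p 0) * ∑ ω : Fin l → Bool, F (outcome (fun i => a i.succ) (fun i => b i.succ) ω) *
        wgt (fun i => p i.succ) ω +
      p 0 * ∑ ω : Fin l → Bool, F (Equiv.swap (a 0) (b 0) *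
        outcome (fun i => a i.succ) (fun i => b i.succ) ω) * wgt (fun i => p i.succ) ω := by
  rw [sum_cons, mul_sum, mul_sum, ← sum_add_distrib]
  refine sum_congr rfl fun ω _ => ?_
  rw [outcome_cons, outcome_cons, wgt_cons, wgt_cons]
  simp only [if_true, Bool.false_eq_true, if_false, one_mul]
  ring

theorem main_sum {n : ℕ} (L : List (Op (Fin n))) : ∀ F : Equiv.Perm (Fin n) → ℝ,
    ∑ ω : Fin L.length → Bool, F (outcome (fun i => (L.get i).a) (fun i => (L.get i).b) ω) *
      wgt (fun i => (L.get i).p) ω = EP L.reverse F := by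
  induction L with
  | nil =>
    intro F
    simp [outcome, wgt]
  | cons o L ih =>
    intro F
    rw [List.reverse_cons, EP_append]
    have h1 : ∀ σ₁ : Equiv.Perm (Fin n), EP [o] (fun σ₂ => F (σ₂ * σ₁)) =
        (1 - o.p) * F σ₁ + o.p * F (Equiv.swap o.a o.b * σ₁) := by
      intro σ₁
      rw [EP_cons, EP_nil, EP_nil, one_mul, one_mul]
    simp only [h1]
    rw [EP_add, EP_mul, EP_mul, ← ih F, ← ih fun σ => F (Equiv.swap o.a o.b * σ)]
    exact step (l := L.length) (fun i => ((o :: L).get i).a) (fun i => ((o :: L).get i).b)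
      (fun i => ((o :: L).get i).p) F

theorem prob_eq {n : ℕ} (L : List (Op (Fin n))) (A : Set (Equiv.Perm (Fin n)))
    [DecidablePred (· ∈ A)] :
    prob (fun i => (L.get i).a) (fun i => (L.get i).b) (fun i => (L.get i).p) A =
      EP L.reverse (fun σ => if σ ∈ A then 1 else 0) := by
  rw [← main_sum]
  unfold prob wgt
  refine sum_congr rfl fun ω _ => ?_
  by_cases h : outcome (fun i => (L.get i).a) (fun i => (L.get i).b) ω ∈ A
  · rw [if_pos h, if_pos h, one_mul]
  · rw [if_neg h, if_neg h, zero_mul]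

theorem unif {n k : ℕ} (ℓ : List (Op (Fin n))) (h : Uni k ℓ) (x y : Fin k → Fin n)
    (hx : Function.Injective x) (hy : Function.Injective y) :
    EP ℓ (fun σ => if ∀ i, σ (x i) = y i then (1 : ℝ) else 0) = 1 / (n.descFactorial k : ℝ) := by
  classical
  obtain ⟨q, hq⟩ : ∃ q, q = EP ℓ (fun σ => if ∀ i, σ (x i) = y i then (1 : ℝ) else 0) := ⟨_, rfl⟩
  have h1 : ∀ e : Fin k ↪ Fin n,
      EP ℓ (fun σ => if ∀ i, σ (e i) = y i then (1 : ℝ) else 0) = q := by
    intro e
    have h2 := h k le_rfl (fun z => if z = y then (1 : ℝ) else 0) e x e.injective hx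
    rw [hq]
    have h3 : ∀ (w : Fin k → Fin n) (σ : Equiv.Perm (Fin n)),
        (if (fun i => σ (w i)) = y then (1 : ℝ) else 0) =
          if ∀ i, σ (w i) = y i then (1 : ℝ) else 0 := by
      intro w σ
      by_cases h4 : ∀ i, σ (w i) = y i
      · rw [if_pos h4, if_pos (funext h4)]
      · rw [if_neg h4, if_neg fun h5 => h4 (congrFun h5)]
    simp only [h3] at h2
    exact h2
  have h2 : ∑ e : Fin k ↪ Fin n,
      EP ℓ (fun σ => if ∀ i, σ (e i) = y i then (1 : ℝ) else 0) = 1 := by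
    rw [← EP_sum]
    refine Eq.trans ?_ (EP_const ℓ 1)
    congr 1
    funext σ
    let e0 : Fin k ↪ Fin n := ⟨fun i => σ.symm (y i), fun i j hij =>
      hy (σ.symm.injective hij)⟩
    rw [Fintype.sum_eq_single e0]
    · rw [if_pos]
      intro i
      show σ (σ.symm (y i)) = y i
      rw [Equiv.apply_symm_apply]
    · intro e he
      rw [if_neg]
      intro h3
      refine he ?_
      ext i
      have h4 : e i = σ.symm (y i) := by
        rw [← h3 i, Equiv.symm_apply_apply]
      rw [h4]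
      rfl
  rw [sum_congr rfl fun e _ => h1 e, sum_const, card_univ, Fintype.card_embedding_eq,
    Fintype.card_fin, Fintype.card_fin, nsmul_eq_mul] at h2
  rw [← hq]
  have h3 : (n.descFactorial k : ℝ) ≠ 0 := fun h4 => by
    rw [h4, zero_mul] at h2
    exact zero_ne_one h2
  rw [eq_div_iff h3, mul_comm]
  exact h2

theorem prob : S_PROB := by
  classical
  intro k n m _ hH
  obtain ⟨ℓ, hok, huni, hlen⟩ := hH
  refine ⟨ℓ.reverse.length, ⟨fun i => (ℓ.reverse.get i).a, fun i => (ℓ.reverse.get i).b,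
    fun i => (ℓ.reverse.get i).p, ?_⟩, by rw [List.length_reverse]; exact hlen⟩
  have hmem : ∀ i, ℓ.reverse.get i ∈ ℓ := fun i => List.mem_reverse.1 (List.get_mem _ i)
  refine ⟨fun i => (hok _ (hmem i)).1, fun i => (hok _ (hmem i)).2.1,
    fun i => (hok _ (hmem i)).2.2, fun x y hx hy => ?_⟩
  rw [prob_eq, List.reverse_reverse]
  have h := unif ℓ huni x y hx.injective hy
  rw [← h]
  congr 1

end Pool.Agent.Q142.KS
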