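import Pool.Agent.Q173.KS.Stm

/-! Project KS, job REL. -/

set_option autoImplicit false

namespace Pool.Agent.Q142.KS

open Pool.Agent.Q173.KS Finset

section

variable {J : Type} [Fintype J] [DecidableEq J]

theorem mem_Lf (x : Bool × J) : x ∈ Lf J ↔ x.1 = false := by simp [Lf]

theorem mem_Rt (x : Bool × J) : x ∈ Rt J ↔ x.1 = true := by simp [Rt]

theorem sdiff_Lf (S : Finset (Bool × J)) : S \ Lf J = S ∩ Rt J := by
  ext x
  rw [mem_sdiff, mem_inter, mem_Lf, mem_Rt]
  cases x.1 <;> simp

theorem sdiff_Rt (S : Finset (Bool × J)) : S \ Rt J = S ∩ Lf J := by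
  ext x
  rw [mem_sdiff, mem_inter, mem_Lf, mem_Rt]
  cases x.1 <;> simp

theorem card_split (S : Finset (Bool × J)) : (S ∩ Lf J).card + (S ∩ Rt J).card = S.card := by
  have h := card_sdiff_add_card_inter S (Lf J)
  rw [sdiff_Lf] at h
  omega

theorem card_Lf : (Lf J).card = Fintype.card J := by
  have h : Lf J = (univ : Finset J).map (emL J) := by
    ext ⟨c, j⟩
    rw [mem_Lf, mem_map]
    constructor
    · intro h
      exact ⟨j, mem_univ j, by simp only at h; rw [h]; rfl⟩
    · rintro ⟨i, -, hi⟩
      have := congrArg Prod.fst hi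
      exact this.symm
  rw [h, card_map, card_univ]

theorem dep {k : ℕ} {Φ : Finset (Bool × J) → ℝ} (hL : InvOn k (Lf J) Φ) (hR : InvOn k (Rt J) Φ)
    (S S' : Finset (Bool × J)) (hS : S.card ≤ k) (h1 : (S ∩ Lf J).card = (S' ∩ Lf J).card)
    (h2 : (S ∩ Rt J).card = (S' ∩ Rt J).card) : Φ S = Φ S' := by
  set M : Finset (Bool × J) := (S' ∩ Lf J) ∪ (S ∩ Rt J) with hM
  have m1 : M ∩ Lf J = S' ∩ Lf J := by
    ext x
    rw [hM, mem_inter, mem_union, mem_inter, mem_inter, mem_Lf, mem_Rt]
    cases x.1 <;> simp
  have m2 : M ∩ Rt J = S ∩ Rt J := by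
    ext x
    rw [hM, mem_inter, mem_union, mem_inter, mem_inter, mem_Lf, mem_Rt]
    cases x.1 <;> simp
  have hMc : M.card ≤ k := by
    have a := card_split M
    have b := card_split S
    rw [m1, m2] at a
    omega
  have e1 : Φ S = Φ M := by
    refine hL S M hS ?_ ?_
    · rw [sdiff_Lf, sdiff_Lf, m2]
    · rw [m1, h1]
  have e2 : Φ M = Φ S' := by
    refine hR M S' hMc ?_ ?_
    · rw [sdiff_Rt, sdiff_Rt, m1]
    · rw [m2, h2]
  rw [e1, e2]

theorem uu_rel {N t : ℕ} (ht : t < N) :
    (2 * (N : ℝ) - t) * uu N (t + 1) + t * uu N (t - 1) = 0 := by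
  rcases t with _ | s
  · simp [uu]
  · have h1 : (2 * (N : ℝ) - s - 1) ≠ 0 := by
      have : ((s : ℝ) + 1) < N := by exact_mod_cast ht
      have h0 : (0 : ℝ) ≤ s := Nat.cast_nonneg s
      intro h
      linarith
    have h2 : uu N (s + 1 + 1) = -(((s : ℝ) + 1) / (2 * N - s - 1)) * uu N s := rfl
    rw [h2, show s + 1 - 1 = s from rfl]
    push_cast
    field_simp
    ring

end

theorem rel : S_REL := by
  intro J _ _ k hk Φ hL hR hRel hsum
  obtain ⟨N, hN⟩ : ∃ N, N = Fintype.card J := ⟨_, rfl⟩
  rw [← hN] at hk hsum ⊢
  have hcases : ∀ b : ℕ, ∀ S : Finset (Bool × J), S.card ≤ k → (S ∩ Rt J).card = b →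
      Φ S = uu N S.card := by
    intro b
    induction b using Nat.strong_induction_on with
    | _ b ih =>
      intro S hS hb
      rcases b with _ | b
      · -- S is in the left half
        have hSL : S ⊆ Lf J := by
          intro x hx
          rw [mem_Lf]
          by_contra hne
          have : x ∈ S ∩ Rt J := by
            rw [mem_inter, mem_Rt]
            exact ⟨hx, by simpa using hne⟩
          rw [card_eq_zero] at hb
          rw [hb] at this
          exact absurd this (notMem_empty x)
        have h1 : ∀ T ∈ (Lf J).powersetCard S.card, Φ T = Φ S := by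
          intro T hT
          rw [mem_powersetCard] at hT
          have hTL : T ∩ Lf J = T := inter_eq_left.2 hT.1
          have hTR : (T ∩ Rt J).card = 0 := by
            have := card_split T
            rw [hTL] at this
            omega
          refine dep hL hR T S (by rw [hT.2]; exact hS) ?_ ?_
          · rw [hTL, inter_eq_left.2 hSL, hT.2]
          · rw [hTR, hb]
        have h2 := hsum S.card hS
        rw [sum_congr rfl h1, sum_const, card_powersetCard, card_Lf, ← hN, nsmul_eq_mul] at h2
        have h3 : (N.choose S.card : ℝ) ≠ 0 := by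
          have := Nat.choose_pos (hS.trans hk)
          positivity
        exact mul_left_cancel₀ h3 h2
      · -- the step
        obtain ⟨y, hy⟩ : (S ∩ Rt J).Nonempty := by
          rw [← card_pos]; omega
        rw [mem_inter, mem_Rt] at hy
        obtain ⟨hyS, hy1⟩ := hy
        obtain ⟨T, hT⟩ : ∃ T, T = S.erase y := ⟨_, rfl⟩
        have hTc : T.card + 1 = S.card := by rw [hT]; exact card_erase_add_one hyS
        have hyT : y ∉ T := by rw [hT]; exact notMem_erase y S
        have hiT : insert y T = S := by rw [hT]; exact insert_erase hyS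
        have hTk : T.card < k := by omega
        have hinsR : ∀ x : Bool × J, x ∉ T → x.1 = true →
            ((insert x T) ∩ Rt J).card = (T ∩ Rt J).card + 1 ∧
            ((insert x T) ∩ Lf J).card = (T ∩ Lf J).card := by
          intro x hx hx1
          constructor
          · rw [insert_inter_of_mem ((mem_Rt x).2 hx1), card_insert_of_notMem]
            intro h
            exact hx (mem_inter.1 h).1
          · rw [insert_inter_of_notMem]
            rw [mem_Lf, hx1]; simp
        have hinsL : ∀ x : Bool × J, x.1 = false →
            ((insert x T) ∩ Rt J).card = (T ∩ Rt J).card := by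
          intro x hx1
          rw [insert_inter_of_notMem]
          rw [mem_Rt, hx1]; simp
        have hyy := hinsR y hyT hy1
        rw [hiT] at hyy
        have hTb : (T ∩ Rt J).card = b := by omega
        have r1 := hRel T hTk
        have r2 : ∑ x ∈ Tᶜ, uu N (insert x T).card + ∑ x ∈ T, uu N (T.erase x).card = 0 := by
          have a1 : ∑ x ∈ Tᶜ, uu N (insert x T).card = (2 * (N : ℝ) - T.card) * uu N (T.card + 1) := by
            rw [sum_congr rfl (g := fun _ => uu N (T.card + 1)) (fun x hx => by
              rw [card_insert_of_notMem (mem_compl.1 hx)])]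
            rw [sum_const, card_compl, Fintype.card_prod, Fintype.card_bool, ← hN, nsmul_eq_mul,
              Nat.cast_sub (by omega)]
            push_cast
            ring
          have a2 : ∑ x ∈ T, uu N (T.erase x).card = (T.card : ℝ) * uu N (T.card - 1) := by
            rw [sum_congr rfl (g := fun _ => uu N (T.card - 1)) (fun x hx => by
              rw [card_erase_of_mem hx])]
            rw [sum_const, nsmul_eq_mul]
          rw [a1, a2]
          exact uu_rel (by omega)
        have r3 : ∑ x ∈ Tᶜ, (Φ (insert x T) - uu N (insert x T).card) +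
            ∑ x ∈ T, (Φ (T.erase x) - uu N (T.erase x).card) = 0 := by
          rw [sum_sub_distrib, sum_sub_distrib]
          linarith
        have r4 : ∑ x ∈ T, (Φ (T.erase x) - uu N (T.erase x).card) = 0 := by
          refine sum_eq_zero fun x hx => ?_
          have h1 : ((T.erase x) ∩ Rt J).card ≤ b := by
            rw [← hTb]
            exact card_le_card (inter_subset_inter_right (erase_subset x T))
          rw [ih _ (by omega) (T.erase x) ((card_erase_le).trans (by omega)) rfl, sub_self]
        have r5 : ∑ x ∈ Tᶜ, (Φ (insert x T) - uu N (insert x T).card) =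
            ∑ x ∈ Tᶜ, (if x.1 = true then Φ S - uu N S.card else 0) := by
          refine sum_congr rfl fun x hx => ?_
          have hxT := mem_compl.1 hx
          split_ifs with hx1
          · obtain ⟨c1, c2⟩ := hinsR x hxT hx1
            have hc : (insert x T).card = S.card := by
              rw [card_insert_of_notMem hxT, hTc]
            rw [hc, dep hL hR (insert x T) S (by rw [hc]; exact hS) (by rw [c2, hyy.2])
              (by rw [c1, hyy.1])]
          · have hx2 : x.1 = false := by simpa using hx1
            have c1 := hinsL x hx2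
            rw [ih b (by omega) (insert x T) (by rw [card_insert_of_notMem hxT]; omega)
              (by rw [c1, hTb]), sub_self]
        rw [r4, add_zero, r5, ← sum_filter, sum_const, nsmul_eq_mul] at r3
        have hpos : ((Tᶜ.filter fun x => x.1 = true).card : ℝ) ≠ 0 := by
          have : 0 < (Tᶜ.filter fun x => x.1 = true).card :=
            card_pos.2 ⟨y, mem_filter.2 ⟨mem_compl.2 hyT, hy1⟩⟩
          positivity
        have := (mul_eq_zero.1 r3).resolve_left hpos
        linarith
  intro S hS
  exact hcases _ S hS rfl

end Pool.Agent.Q142.KS
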